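import Pool.Agent.Y817.WK.Stm

/-!
# Job WK-TRI (project WK of helper115, row MP_f5ceca_al), by helper66
-/

set_option autoImplicit false

namespace Pool.Agent.Q66.WK.TRI

open Pool.Agent.Y817.WK

section
variable (K : Type) [Field K] (S : Type) [CommRing S] [Algebra K S] (M : Type)
  [AddCommGroup M] [Module K M]

/-- The triangular algebra. -/
def Tri : Type :=
  S × Derivation K S S × S × S × S × (S →ₗ[K] M) × (S →ₗ[K] M) × M

noncomputable instance : AddCommGroup (Tri K S M) :=
  inferInstanceAs (AddCommGroup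
    (S × Derivation K S S × S × S × S × (S →ₗ[K] M) × (S →ₗ[K] M) × M))

noncomputable instance : Module K (Tri K S M) :=
  inferInstanceAs (Module K
    (S × Derivation K S S × S × S × S × (S →ₗ[K] M) × (S →ₗ[K] M) × M))

end

section
variable {K : Type} [Field K] {S : Type} [CommRing S] [Algebra K S] {M : Type}
  [AddCommGroup M] [Module K M]

def mkT (a : S) (d : Derivation K S S) (c f h : S) (p q : S →ₗ[K] M) (m : M) : Tri K S M :=
  (a, d, c, f, h, p, q, m)

def pa (x : Tri K S M) : S := x.1
def pd (x : Tri K S M) : Derivation K S S := x.2.1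
def pc (x : Tri K S M) : S := x.2.2.1
def pf (x : Tri K S M) : S := x.2.2.2.1
def ph (x : Tri K S M) : S := x.2.2.2.2.1
def pp (x : Tri K S M) : S →ₗ[K] M := x.2.2.2.2.2.1
def pq (x : Tri K S M) : S →ₗ[K] M := x.2.2.2.2.2.2.1
def pm (x : Tri K S M) : M := x.2.2.2.2.2.2.2

theorem ext8 {x y : Tri K S M} (h1 : pa x = pa y) (h2 : pd x = pd y) (h3 : pc x = pc y)
    (h4 : pf x = pf y) (h5 : ph x = ph y) (h6 : pp x = pp y) (h7 : pq x = pq y)
    (h8 : pm x = pm y) : x = y :=
  Prod.ext h1 (Prod.ext h2 (Prod.ext h3 (Prod.ext h4 (Prod.ext h5 (Prod.ext h6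
    (Prod.ext h7 h8))))))

section lem
variable (x y : Tri K S M) (k : K)
@[simp] theorem pa_add : pa (x + y) = pa x + pa y := rfl
@[simp] theorem pd_add : pd (x + y) = pd x + pd y := rfl
@[simp] theorem pc_add : pc (x + y) = pc x + pc y := rfl
@[simp] theorem pf_add : pf (x + y) = pf x + pf y := rfl
@[simp] theorem ph_add : ph (x + y) = ph x + ph y := rfl
@[simp] theorem pp_add : pp (x + y) = pp x + pp y := rfl
@[simp] theorem pq_add : pq (x + y) = pq x + pq y := rfl
@[simp] theorem pm_add : pm (x + y) = pm x + pm y := rfl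
@[simp] theorem pa_sub : pa (x - y) = pa x - pa y := rfl
@[simp] theorem pd_sub : pd (x - y) = pd x - pd y := rfl
@[simp] theorem pc_sub : pc (x - y) = pc x - pc y := rfl
@[simp] theorem pf_sub : pf (x - y) = pf x - pf y := rfl
@[simp] theorem ph_sub : ph (x - y) = ph x - ph y := rfl
@[simp] theorem pp_sub : pp (x - y) = pp x - pp y := rfl
@[simp] theorem pq_sub : pq (x - y) = pq x - pq y := rfl
@[simp] theorem pm_sub : pm (x - y) = pm x - pm y := rfl
@[simp] theorem pa_zero : pa (0 : Tri K S M) = 0 := rfl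
@[simp] theorem pd_zero : pd (0 : Tri K S M) = 0 := rfl
@[simp] theorem pc_zero : pc (0 : Tri K S M) = 0 := rfl
@[simp] theorem pf_zero : pf (0 : Tri K S M) = 0 := rfl
@[simp] theorem ph_zero : ph (0 : Tri K S M) = 0 := rfl
@[simp] theorem pp_zero : pp (0 : Tri K S M) = 0 := rfl
@[simp] theorem pq_zero : pq (0 : Tri K S M) = 0 := rfl
@[simp] theorem pm_zero : pm (0 : Tri K S M) = 0 := rfl
@[simp] theorem pa_smul : pa (k • x) = k • pa x := rfl
@[simp] theorem pd_smul : pd (k • x) = k • pd x := rfl
@[simp] theorem pc_smul : pc (k • x) = k • pc x := rfl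
@[simp] theorem pf_smul : pf (k • x) = k • pf x := rfl
@[simp] theorem ph_smul : ph (k • x) = k • ph x := rfl
@[simp] theorem pp_smul : pp (k • x) = k • pp x := rfl
@[simp] theorem pq_smul : pq (k • x) = k • pq x := rfl
@[simp] theorem pm_smul : pm (k • x) = k • pm x := rfl
end lem

section mk
variable (a : S) (d : Derivation K S S) (c f h : S) (p q : S →ₗ[K] M) (m : M)
@[simp] theorem pa_mk : pa (mkT a d c f h p q m) = a := rfl
@[simp] theorem pd_mk : pd (mkT a d c f h p q m) = d := rfl
@[simp] theorem pc_mk : pc (mkT a d c f h p q m) = c := rfl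
@[simp] theorem pf_mk : pf (mkT a d c f h p q m) = f := rfl
@[simp] theorem ph_mk : ph (mkT a d c f h p q m) = h := rfl
@[simp] theorem pp_mk : pp (mkT a d c f h p q m) = p := rfl
@[simp] theorem pq_mk : pq (mkT a d c f h p q m) = q := rfl
@[simp] theorem pm_mk : pm (mkT a d c f h p q m) = m := rfl
end mk

/-- The product: first `x`, then `y`. -/
noncomputable def mulT (x y : Tri K S M) : Tri K S M :=
  mkT (pa x * pa y) (pa y • pd x + pa x • pd y) (pa y * pc x + pa x * pc y + pd y (pa x))
    (pf x * pa y) (ph x * pa y + pd y (pf x) + pc y * pf x)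
    (pp y ∘ₗ LinearMap.mulLeft K (pa x) +
      pq y ∘ₗ ((pd x : S →ₗ[K] S) + LinearMap.mulLeft K (pc x)))
    (pq y ∘ₗ LinearMap.mulLeft K (pa x)) (pp y (pf x) + pq y (ph x))

noncomputable instance : Mul (Tri K S M) := ⟨mulT⟩

section mul
variable (x y : Tri K S M)
@[simp] theorem pa_mul : pa (x * y) = pa x * pa y := rfl
@[simp] theorem pd_mul : pd (x * y) = pa y • pd x + pa x • pd y := rfl
@[simp] theorem pc_mul : pc (x * y) = pa y * pc x + pa x * pc y + pd y (pa x) := rfl
@[simp] theorem pf_mul : pf (x * y) = pf x * pa y := rfl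
@[simp] theorem ph_mul : ph (x * y) = ph x * pa y + pd y (pf x) + pc y * pf x := rfl
@[simp] theorem pp_mul : pp (x * y) = pp y ∘ₗ LinearMap.mulLeft K (pa x) +
      pq y ∘ₗ ((pd x : S →ₗ[K] S) + LinearMap.mulLeft K (pc x)) := rfl
@[simp] theorem pq_mul : pq (x * y) = pq y ∘ₗ LinearMap.mulLeft K (pa x) := rfl
@[simp] theorem pm_mul : pm (x * y) = pp y (pf x) + pq y (ph x) := rfl
end mul

theorem aux (φ : S →ₗ[K] M) (P : M) (w u v : S) (h : w = u + v) :
    P + φ w = P + φ u + φ v := by
  rw [h, map_add, add_assoc]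

theorem assocT (x y z : Tri K S M) : x * y * z = x * (y * z) := by
  apply ext8
  · simp [mul_assoc]
  · ext s
    simp
    ring
  · simp
    ring
  · simp [mul_assoc]
  · simp
    ring
  · ext s
    simp only [pp_mul, pq_mul, pa_mul, pd_mul, pc_mul, LinearMap.add_apply, LinearMap.comp_apply,
      LinearMap.mulLeft_apply, Derivation.coeFn_coe, Derivation.coe_add_linearMap,
      Derivation.coe_smul_linearMap, LinearMap.smul_apply, Derivation.leibniz, smul_eq_mul]
    have e3 : pa x * pa y * s = pa y * (pa x * s) := by ring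
    rw [e3]
    apply aux
    ring
  · ext s
    simp only [pp_mul, pq_mul, pa_mul, pd_mul, pc_mul, LinearMap.add_apply, LinearMap.comp_apply,
      LinearMap.mulLeft_apply]
    congr 1
    ring
  · simp only [pm_mul, pp_mul, pq_mul, pf_mul, ph_mul, LinearMap.add_apply, LinearMap.comp_apply,
      LinearMap.mulLeft_apply, Derivation.coeFn_coe]
    rw [mul_comm (pa y) (pf x)]
    apply aux
    ring

noncomputable instance : NonUnitalRing (Tri K S M) :=
  { (inferInstance : AddCommGroup (Tri K S M)), (inferInstance : Mul (Tri K S M)) with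
    left_distrib := by
      intro x y z
      apply ext8
      · simp [mul_add]
      · ext s; simp; ring
      · simp; ring
      · simp [mul_add]
      · simp; ring
      · ext s; simp; abel
      · ext s; simp
      · simp; abel
    right_distrib := by
      intro x y z
      apply ext8
      · simp [add_mul]
      · ext s; simp; ring
      · simp; ring
      · simp [add_mul]
      · simp; ring
      · ext s; simp [add_mul]; abel
      · ext s; simp [add_mul]
      · simp; abel
    zero_mul := by
      intro x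
      apply ext8 <;> (try ext s) <;> simp
    mul_zero := by
      intro x
      apply ext8 <;> (try ext s) <;> simp
    mul_assoc := assocT }

instance : IsScalarTower K (Tri K S M) (Tri K S M) := ⟨by
  intro k x y
  change (k • x) * y = k • (x * y)
  apply ext8
  · simp
  · ext s; simp; 
  · simp
  · simp
  · simp
  · ext s; simp
  · ext s; simp
  · simp⟩

instance : SMulCommClass K (Tri K S M) (Tri K S M) := ⟨by
  intro k x y
  change k • (x * y) = x * (k • y)
  apply ext8
  · simp
  · ext s; simp; 
  · simp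
  · simp
  · simp
  · ext s; simp
  · ext s; simp
  · simp⟩

theorem comm_pa (y z : Tri K S M) : pa (y * z - z * y) = 0 := by simp [mul_comm]

theorem comm_pd (y z : Tri K S M) : pd (y * z - z * y) = 0 := by
  ext s
  simp
  ring

theorem aux2 (x C D v : Tri K S M) (h1 : pa C = 0) (h2 : pd C = 0) (h3 : pa D = 0)
    (h4 : pd D = 0) : x * C * D * v = 0 := by
  apply ext8 <;> (try ext s) <;> simp [h1, h2, h3, h4]

theorem aux3 (x D u : Tri K S M) (h1 : pa D = 0) (h2 : pd D = 0) (h3 : pc D = 0) :
    x * D * u = 0 := by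
  apply ext8 <;> (try ext s) <;> simp [h1, h2, h3]

theorem inW : InW (Tri K S M) := by
  constructor
  · intro x y z t u v
    exact aux2 _ _ _ _ (comm_pa _ _) (comm_pd _ _) (comm_pa _ _) (comm_pd _ _)
  · intro x y z t u
    apply aux3
    · simp [comm_pa, mul_comm]
    · exact comm_pd _ _
    · rw [pc_sub, pc_mul, pc_mul, comm_pa, comm_pd]
      simp

end

theorem t : StmTri := by
  intro K _ S _ _ M _ _
  refine ⟨Tri K S M, inferInstance, inferInstance, inferInstance, inferInstance,
    fun a δ c => mkT a δ c 0 0 0 0 0, fun f h => mkT 0 0 0 f h 0 0 0,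
    { toFun := fun φ => mkT 0 0 0 0 0 0 φ 0, map_zero' := rfl, map_add' := ?_ },
    { toFun := fun φ => mkT 0 0 0 0 0 φ 0 0, map_zero' := rfl, map_add' := ?_ },
    fun m => mkT 0 0 0 0 0 0 0 m, inW, rfl, ?_, ?_, ?_, rfl, ?_, ?_, ?_, ?_, ?_⟩
  · intro φ ψ
    apply ext8 <;> simp
  · intro φ ψ
    apply ext8 <;> simp
  · intro m m' h
    exact congrArg pm h
  · intro a δ c a' δ' c'
    apply ext8 <;> (try ext s) <;> simp
  · intro a δ c a' δ' c'
    apply ext8 <;> (try ext s) <;> simp
  · intro f h a δ c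
    apply ext8 <;> (try ext s) <;> simp
  · intro a c δ φ
    apply ext8 <;> (try ext s) <;> simp
  · intro c δ φ
    apply ext8 <;> (try ext s) <;> simp
  · intro f h φ
    apply ext8 <;> (try ext s) <;> simp
  · intro f h φ
    apply ext8 <;> (try ext s) <;> simp

end Pool.Agent.Q66.WK.TRI
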